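import Pool.Agent.U693.AF.Core

/-!
# Forms of the powers of a hyperelliptic Jacobian: inflation
-/

set_option autoImplicit false
set_option linter.all false

open Polynomial IsDedekindDomain
open scoped Classical

namespace Pool.Agent.U693.AF

section avg

variable {G Q A : Type} [Group G] [Group Q] [AddCommGroup A] {a : G → A →+ A}
  (ha : ∀ σ τ x, a (σ * τ) x = a σ (a τ x)) {π : G →* Q}

include ha in
/-- The fixed part is stable. -/
theorem stab {x : A} (hx : ∀ ν, π ν = 1 → a ν x = x) (σ : G) : ∀ ν, π ν = 1 → a ν (a σ x) = a σ x := by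
  intro ν hν
  have h1 : π (σ⁻¹ * ν * σ) = 1 := by
    rw [map_mul, map_mul, hν, mul_one, ← map_mul, inv_mul_cancel, map_one]
  rw [← ha, show ν * σ = σ * (σ⁻¹ * ν * σ) by group, ha, hx _ h1]

variable (inj : ∀ x, (∀ ν, π ν = 1 → a ν x = x) → 2 • x = 0 → x = 0)
  (surj : ∀ x, (∀ ν, π ν = 1 → a ν x = x) → ∃ y, (∀ ν, π ν = 1 → a ν y = y) ∧ 2 • y = x)

include inj in
theorem inj_pow (m : ℕ) (x : A) (hx : ∀ ν, π ν = 1 → a ν x = x) (h : 2 ^ m • x = 0) : x = 0 := by
  induction m with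
  | zero => simpa using h
  | succ m ih =>
    apply ih
    apply inj
    · intro ν hν
      rw [map_nsmul, hx ν hν]
    · rw [← mul_smul, ← pow_succ']
      exact h

include surj in
theorem surj_pow (m : ℕ) (x : A) (hx : ∀ ν, π ν = 1 → a ν x = x) :
    ∃ y, (∀ ν, π ν = 1 → a ν y = y) ∧ 2 ^ m • y = x := by
  induction m generalizing x with
  | zero => exact ⟨x, hx, by simp⟩
  | succ m ih =>
    obtain ⟨y, hy, rfl⟩ := surj x hx
    obtain ⟨z, hz, rfl⟩ := ih y hy
    refine ⟨z, hz, ?_⟩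
    rw [← mul_smul, ← pow_succ']

include ha inj surj in
/-- The cohomology of a finite 2-group with values in a uniquely 2-divisible group is zero. -/
theorem avg [Finite Q] (hπ : Function.Surjective π) {m : ℕ} (hm : Nat.card Q = 2 ^ m)
    {h : G → A} (hh : ∀ σ τ, h (σ * τ) = h σ + a σ (h τ)) (h0 : ∀ ν, π ν = 1 → h ν = 0) :
    ∃ T, ∀ σ, h σ = a σ T - T := by
  haveI := Fintype.ofFinite Q
  have hdep : ∀ σ σ', π σ = π σ' → h σ = h σ' := by
    intro σ σ' e
    have h1 : π (σ⁻¹ * σ') = 1 := by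
      rw [map_mul, map_inv, e, inv_mul_cancel]
    have h2 := hh σ (σ⁻¹ * σ')
    rw [mul_inv_cancel_left, h0 _ h1, map_zero, add_zero] at h2
    exact h2.symm
  have hfix : ∀ σ ν, π ν = 1 → a ν (h σ) = h σ := by
    intro σ ν hν
    have h1 := hh ν σ
    rw [h0 _ hν, zero_add] at h1
    rw [← h1]
    apply hdep
    rw [map_mul, hν, one_mul]
  set l : Q → G := Function.surjInv hπ with hl
  have hπl : ∀ s, π (l s) = s := Function.surjInv_eq hπ
  set P : A := ∑ s : Q, h (l s) with hP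
  have hPf : ∀ ν, π ν = 1 → a ν P = P := by
    intro ν hν
    rw [hP, map_sum]
    exact Finset.sum_congr rfl fun s _ => hfix _ _ hν
  have hσP : ∀ σ, a σ P = P - 2 ^ m • h σ := by
    intro σ
    have h1 : ∀ s, a σ (h (l s)) = h (l (π σ * s)) - h σ := by
      intro s
      have h2 : h (l (π σ * s)) = h (σ * l s) := by
        apply hdep
        rw [hπl, map_mul, hπl]
      rw [h2, hh]
      abel
    rw [hP, map_sum]
    simp only [h1]
    rw [Finset.sum_sub_distrib, Finset.sum_const, Finset.card_univ, ← Nat.card_eq_fintype_card, hm]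
    congr 1
    exact Equiv.sum_comp (Equiv.mulLeft (π σ)) (fun s => h (l s))
  obtain ⟨y, hy, hyP⟩ := surj_pow surj m P hPf
  refine ⟨-y, fun σ => ?_⟩
  have hz : h σ - (y - a σ y) = 0 := by
    apply inj_pow inj m
    · intro ν hν
      rw [map_sub, map_sub, hfix _ _ hν, hy ν hν, stab ha hy σ ν hν]
    · rw [nsmul_sub, nsmul_sub, ← map_nsmul, hyP, hσP]
      abel
  rw [map_neg, sub_eq_zero.1 hz]
  abel

include ha inj surj in
/-- The invariants are uniquely 2-divisible. -/
theorem inv_div : (∀ x, (∀ σ, a σ x = x) → 2 • x = 0 → x = 0) ∧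
    ∀ x, (∀ σ, a σ x = x) → ∃ y, (∀ σ, a σ y = y) ∧ 2 • y = x := by
  refine ⟨fun x hx h2 => inj x (fun ν _ => hx ν) h2, fun x hx => ?_⟩
  obtain ⟨y, hy, rfl⟩ := surj x fun ν _ => hx ν
  refine ⟨y, fun σ => ?_, rfl⟩
  apply sub_eq_zero.1
  apply inj
  · intro ν hν
    rw [map_sub, stab ha hy σ ν hν, hy ν hν]
  · rw [nsmul_sub, ← map_nsmul, hx, sub_self]

end avg

end Pool.Agent.U693.AF
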