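import Pool.Agent.U693.AF.Tw

/-!
# Forms of the powers of a hyperelliptic Jacobian: restriction to `M`
-/

set_option autoImplicit false
set_option linter.all false

open Polynomial IsDedekindDomain
open scoped Classical

namespace Pool.Agent.U693.AF

open Pool.Agent.Y160.SE
open Pool.Agent.TH115.GD (incl rs ak exists_kappa exists_aut cont_rs)
open Pool.Agent.N106.JB (ATriv ACoc good2)

/-- The absolute Galois group of `K`. -/
abbrev GK (K : Type) [Field K] : Type := SeparableClosure K ≃ₐ[K] SeparableClosure K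

section defs

variable {K : Type} [Field K] (F : K[X]) {n : ℕ} (ρ : GK K →* Matrix.GeneralLinearGroup (Fin n) ℤ)

/-- A continuous cocycle with values in `A_ρ`. -/
def TCoc (f : GK K → Fin n → Jac 2 F (SeparableClosure K)) : Prop :=
  IsLocallyConstant f ∧ ∀ σ τ, f (σ * τ) = f σ + mt (ρ σ).1 (mp (jm 2 F σ.toAlgHom) (f τ))

/-- A coboundary. -/
def TCob (f : GK K → Fin n → Jac 2 F (SeparableClosure K)) : Prop :=
  ∃ P : Fin n → Jac 2 F (SeparableClosure K), ∀ σ,
    f σ = mt (ρ σ).1 (mp (jm 2 F σ.toAlgHom) P) - P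

/-- Triviality over an extension `L` of `K`. -/
def TLoc (L : Type) [Field L] [Algebra K L]
    (f : GK K → Fin n → Jac 2 F (SeparableClosure K)) : Prop :=
  ∀ ι : SeparableClosure K →ₐ[K] SeparableClosure L, ∃ P : Fin n → Jac 2 F (SeparableClosure L),
    ∀ (τ : SeparableClosure L ≃ₐ[L] SeparableClosure L) (σ : GK K), (∀ x, τ (ι x) = ι (σ x)) →
      mp (jm 2 F ι) (f σ) = mt (ρ σ).1 (mp (jm 2 F (τ.toAlgHom.restrictScalars K)) P) - P

end defs

section core

variable {K : Type} [Field K] {M : Type} [Field M] [Algebra K M]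

/-- The automorphism over `K` given by an automorphism over `M`. -/
noncomputable def dn (ε : SeparableClosure K ≃ₐ[K] SeparableClosure M)
    (σ : SeparableClosure M ≃ₐ[M] SeparableClosure M) : GK K :=
  (ε.trans (σ.restrictScalars K)).trans ε.symm

theorem dn_apply (ε : SeparableClosure K ≃ₐ[K] SeparableClosure M)
    (σ : SeparableClosure M ≃ₐ[M] SeparableClosure M) (x : SeparableClosure K) :
    ε (dn ε σ x) = σ (ε x) := by
  show ε (ε.symm (σ (ε x))) = σ (ε x)
  rw [ε.apply_symm_apply]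

theorem dn_mul (ε : SeparableClosure K ≃ₐ[K] SeparableClosure M)
    (σ τ : SeparableClosure M ≃ₐ[M] SeparableClosure M) :
    dn ε (σ * τ) = dn ε σ * dn ε τ := by
  apply AlgEquiv.ext
  intro x
  apply ε.injective
  rw [dn_apply]
  show σ (τ (ε x)) = ε (dn ε σ (dn ε τ x))
  rw [dn_apply, dn_apply]

theorem dn_comp (ε : SeparableClosure K ≃ₐ[K] SeparableClosure M)
    (σ : SeparableClosure M ≃ₐ[M] SeparableClosure M) :
    ε.toAlgHom.comp (dn ε σ).toAlgHom = (rs K σ).comp ε.toAlgHom := by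
  apply AlgHom.ext
  intro x
  exact dn_apply ε σ x

variable {F : K[X]} {n : ℕ} {ρ : GK K →* Matrix.GeneralLinearGroup (Fin n) ℤ}
  {ε : SeparableClosure K ≃ₐ[K] SeparableClosure M}

/-- The coordinates over `M`. -/
noncomputable def cc (ε : SeparableClosure K ≃ₐ[K] SeparableClosure M)
    (f : GK K → Fin n → Jac 2 F (SeparableClosure K)) (i : Fin n)
    (σ : SeparableClosure M ≃ₐ[M] SeparableClosure M) : Jac 2 F (SeparableClosure M) :=
  jm 2 F ε.toAlgHom (f (dn ε σ) i)

theorem mats_one {σ : GK K} (hσ : ρ σ = 1) (P : Fin n → Jac 2 F (SeparableClosure K)) :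
    mt (ρ σ).1 (mp (jm 2 F σ.toAlgHom) P) = mp (jm 2 F σ.toAlgHom) P := by
  rw [hσ]
  exact mt_one _

theorem cc_lc [IsGalois K (SeparableClosure M)]
    {f : GK K → Fin n → Jac 2 F (SeparableClosure K)} (hf : TCoc F ρ f) (i : Fin n) :
    IsLocallyConstant (cc ε f i) := by
  have h1 : IsLocallyConstant (fun σ : SeparableClosure M ≃ₐ[K] SeparableClosure M =>
      f ((ε.trans σ).trans ε.symm)) := hf.1.comp_continuous (cont_cj ε)
  have h2 : IsLocallyConstant (fun σ : SeparableClosure M ≃ₐ[K] SeparableClosure M =>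
      jm 2 F ε.toAlgHom (f ((ε.trans σ).trans ε.symm) i)) :=
    h1.comp (fun P => jm 2 F ε.toAlgHom (P i))
  exact h2.comp_continuous cont_rs

theorem cc_mul (hρ : ∀ σ : SeparableClosure M ≃ₐ[M] SeparableClosure M, ρ (dn ε σ) = 1)
    {f : GK K → Fin n → Jac 2 F (SeparableClosure K)} (hf : TCoc F ρ f) (i : Fin n)
    (σ τ : SeparableClosure M ≃ₐ[M] SeparableClosure M) :
    cc ε f i (σ * τ) = cc ε f i σ + jm 2 F (rs K σ) (cc ε f i τ) := by
  show jm 2 F ε.toAlgHom (f (dn ε (σ * τ)) i) = jm 2 F ε.toAlgHom (f (dn ε σ) i) +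
    jm 2 F (rs K σ) (jm 2 F ε.toAlgHom (f (dn ε τ) i))
  rw [dn_mul, hf.2, mats_one (hρ σ)]
  show jm 2 F ε.toAlgHom (f (dn ε σ) i + jm 2 F (dn ε σ).toAlgHom (f (dn ε τ) i)) = _
  rw [map_add, jm_jm, jm_jm, dn_comp]

theorem cc_loc (hρ : ∀ σ : SeparableClosure M ≃ₐ[M] SeparableClosure M, ρ (dn ε σ) = 1)
    {f : GK K → Fin n → Jac 2 F (SeparableClosure K)} {L E : Type} [Field L] [Algebra K L]
    [Field E] [Algebra M E] [Algebra K E] [IsScalarTower K M E]
    (j : L →+* E) (hj : ∀ x : K, j (algebraMap K L x) = algebraMap K E x)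
    (hl : TLoc F ρ L f) (i : Fin n) :
    ATriv (f := F.map (algebraMap K M)) E
      (fun σ => (tr F M (SeparableClosure M)).symm (cc ε f i σ)) := by
  obtain ⟨κ, hκ1, hκ2⟩ := exists_kappa (F := K) (L := L)
    (Ω' := SeparableClosure L) (E := E) (Ω'' := SeparableClosure E) j hj
  haveI : IsScalarTower K M (SeparableClosure E) := by
    refine IsScalarTower.of_algebraMap_eq fun x => ?_
    rw [IsScalarTower.algebraMap_apply K E (SeparableClosure E),
      IsScalarTower.algebraMap_apply M E (SeparableClosure E),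
      IsScalarTower.algebraMap_apply K M E]
  let ι2 : SeparableClosure M →ₐ[M] SeparableClosure E := IsSepClosed.lift
  let l0 : SeparableClosure K →ₐ[K] SeparableClosure L := IsSepClosed.lift
  obtain ⟨s, hs⟩ := exists_aut (κ.comp l0) ((ι2.restrictScalars K).comp ε.toAlgHom)
  set ι : SeparableClosure K →ₐ[K] SeparableClosure L := l0.comp s.toAlgHom with hι
  have hκι : ∀ x, κ (ι x) = ι2 (ε x) := fun x => (hs x).symm
  obtain ⟨P, hP⟩ := hl ι
  refine ⟨ι2, (tr F M (SeparableClosure E)).symm (jm 2 F κ (P i)), fun τ σ hτ => ?_⟩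
  obtain ⟨τ', hτ'⟩ := hκ2 τ
  have h2 : ∀ x, τ' (ι x) = ι (dn ε σ x) := by
    intro x
    apply (κ : SeparableClosure L →+* SeparableClosure E).injective
    show κ (τ' (ι x)) = κ (ι (dn ε σ x))
    rw [← hτ', hκι, hκι, hτ, dn_apply]
  have h3 := hP τ' (dn ε σ) h2
  rw [hρ σ] at h3
  have h4 : jm 2 F ι (f (dn ε σ) i) = jm 2 F (τ'.toAlgHom.restrictScalars K) (P i) - P i := by
    have h5 := congrFun h3 i
    have h6 := mt_one (mp (jm 2 F (τ'.toAlgHom.restrictScalars K)) P)
    exact h5.trans (congrArg (fun z => z - P i) (congrFun h6 i))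
  have h5 := congrArg (jm 2 F κ) h4
  rw [map_sub, jm_jm, jm_jm] at h5
  have e1 : (ι2.restrictScalars K).comp ε.toAlgHom = κ.comp ι := AlgHom.ext fun x => (hκι x).symm
  have e2 : κ.comp (τ'.toAlgHom.restrictScalars K) = (rs K τ).comp κ :=
    AlgHom.ext fun x => (hτ' x).symm
  have h6 : jm 2 F (ι2.restrictScalars K) (cc ε f i σ) =
      jm 2 F (rs K τ) (jm 2 F κ (P i)) - jm 2 F κ (P i) := by
    show jm 2 F (ι2.restrictScalars K) (jm 2 F ε.toAlgHom (f (dn ε σ) i)) = _
    rw [jm_jm, e1, h5, e2, jm_jm]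
  apply (tr F M (SeparableClosure E)).injective
  rw [tr_nat ι2 (ι2.restrictScalars K) (fun x => rfl), AddEquiv.apply_symm_apply, h6, map_sub,
    tr_nat (rs M τ) (rs K τ) (fun x => rfl), AddEquiv.apply_symm_apply]

end core

end Pool.Agent.U693.AF
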