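import Pool.Agent.U693.AF.Avg

/-!
# Forms of the powers of a hyperelliptic Jacobian: the main step
-/

set_option autoImplicit false
set_option linter.all false

open Polynomial IsDedekindDomain
open scoped Classical

namespace Pool.Agent.U693.AF

open Pool.Agent.Y160.SE
open Pool.Agent.TH115.GD (incl rs ak exists_kappa exists_aut cont_rs)
open Pool.Agent.N106.JB (ATriv ACoc good2)

section main

variable {K : Type} [Field K] {M : Type} [Field M] [Algebra K M]
  {F : K[X]} {n : ℕ} {ρ : GK K →* Matrix.GeneralLinearGroup (Fin n) ℤ}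
  {ε : SeparableClosure K ≃ₐ[K] SeparableClosure M}

/-- The twisted action. -/
noncomputable def ta (F : K[X]) (ρ : GK K →* Matrix.GeneralLinearGroup (Fin n) ℤ) (σ : GK K) :
    (Fin n → Jac 2 F (SeparableClosure K)) →+ (Fin n → Jac 2 F (SeparableClosure K)) :=
  (mt (ρ σ).1).comp (mp (jm 2 F σ.toAlgHom))

theorem ta_mul (σ τ : GK K) (x : Fin n → Jac 2 F (SeparableClosure K)) :
    ta F ρ (σ * τ) x = ta F ρ σ (ta F ρ τ x) := by
  show mt (ρ (σ * τ)).1 (mp (jm 2 F (σ * τ).toAlgHom) x) =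
    mt (ρ σ).1 (mp (jm 2 F σ.toAlgHom) (mt (ρ τ).1 (mp (jm 2 F τ.toAlgHom) x)))
  rw [map_mul, mp_mt]
  refine (mt_mul _ _ _).trans ?_
  congr 2
  funext i
  show jm 2 F (σ * τ).toAlgHom (x i) = jm 2 F σ.toAlgHom (jm 2 F τ.toAlgHom (x i))
  rw [jm_jm]
  rfl

/-- The restriction to `M`. -/
noncomputable def res (ε : SeparableClosure K ≃ₐ[K] SeparableClosure M) [Normal K M] :
    GK K →* (M ≃ₐ[K] M) :=
  (AlgEquiv.restrictNormalHom M).comp (AlgEquiv.autCongr ε).toMonoidHom

theorem res_spec [Normal K M] (σ : GK K) (m : M) :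
    algebraMap M (SeparableClosure M) (res ε σ m) =
      ε (σ (ε.symm (algebraMap M (SeparableClosure M) m))) := by
  have h := AlgEquiv.restrictNormal_commutes (AlgEquiv.autCongr ε σ) M m
  exact h

theorem res_surj [Normal K M] [Normal K (SeparableClosure M)] :
    Function.Surjective (res ε : GK K →* (M ≃ₐ[K] M)) := by
  intro s
  obtain ⟨t, ht⟩ := AlgEquiv.restrictNormalHom_surjective (F := K) (K₁ := M) (SeparableClosure M) s
  exact ⟨(AlgEquiv.autCongr ε).symm t, by
    show AlgEquiv.restrictNormalHom M (AlgEquiv.autCongr ε ((AlgEquiv.autCongr ε).symm t)) = s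
    rw [MulEquiv.apply_symm_apply, ht]⟩

theorem res_one [Normal K M] {ν : GK K} :
    res (M := M) ε ν = 1 ↔ ∃ τ : SeparableClosure M ≃ₐ[M] SeparableClosure M, ν = dn ε τ := by
  constructor
  · intro h
    have h1 : ∀ m : M, ε (ν (ε.symm (algebraMap M (SeparableClosure M) m))) =
        algebraMap M (SeparableClosure M) m := by
      intro m
      rw [← res_spec, h]
      rfl
    let e : SeparableClosure M ≃+* SeparableClosure M :=
      (ε.symm.toRingEquiv.trans ν.toRingEquiv).trans ε.toRingEquiv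
    refine ⟨AlgEquiv.ofRingEquiv (f := e) h1, ?_⟩
    apply AlgEquiv.ext
    intro x
    apply ε.injective
    rw [dn_apply]
    show ε (ν x) = ε (ν (ε.symm (ε x)))
    rw [ε.symm_apply_apply]
  · rintro ⟨τ, rfl⟩
    apply AlgEquiv.ext
    intro m
    apply (algebraMap M (SeparableClosure M)).injective
    rw [res_spec, dn_apply, ε.apply_symm_apply, τ.commutes]
    rfl

theorem ta_dn (hρ : ∀ σ : SeparableClosure M ≃ₐ[M] SeparableClosure M, ρ (dn ε σ) = 1)
    (τ : SeparableClosure M ≃ₐ[M] SeparableClosure M)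
    (x : Fin n → Jac 2 F (SeparableClosure K)) (i : Fin n) :
    ta F ρ (dn ε τ) x i = jm 2 F (dn ε τ).toAlgHom (x i) := by
  have h := mats_one (hρ τ) x
  exact congrFun h i

theorem eps_inj (x : Jac 2 F (SeparableClosure K)) (h : jm 2 F ε.toAlgHom x = 0) : x = 0 := by
  have h1 := congrArg (jm 2 F ε.symm.toAlgHom) h
  rw [map_zero, jm_jm] at h1
  have e : ε.symm.toAlgHom.comp ε.toAlgHom = AlgHom.id K (SeparableClosure K) := by
    apply AlgHom.ext
    intro y
    show ε.symm (ε y) = y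
    rw [ε.symm_apply_apply]
  rw [e, jm_id] at h1
  exact h1

theorem eps_symm (x : Jac 2 F (SeparableClosure M)) :
    jm 2 F ε.toAlgHom (jm 2 F ε.symm.toAlgHom x) = x := by
  rw [jm_jm]
  have e : ε.toAlgHom.comp ε.symm.toAlgHom = AlgHom.id K (SeparableClosure M) := by
    apply AlgHom.ext
    intro y
    show ε (ε.symm y) = y
    rw [ε.apply_symm_apply]
  rw [e, jm_id]

/-- The points over `M` are a subgroup. -/
theorem incl_inj (hg : Good 2 (-1 : M) (F.map (algebraMap K M))) (x : Jac 2 F M)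
    (h : jm 2 F (incl K M (SeparableClosure M)) x = 0) : x = 0 := by
  have h1 := Pool.Agent.N655.JB.inj M (SeparableClosure M) (F.map (algebraMap K M)) hg
  have h2 : jm 2 (F.map (algebraMap K M)) (incl M M (SeparableClosure M))
      ((tr F M M).symm x) = 0 := by
    apply (tr F M (SeparableClosure M)).injective
    rw [tr_nat (incl M M (SeparableClosure M)) (incl K M (SeparableClosure M)) (fun x => rfl),
      AddEquiv.apply_symm_apply, h, map_zero]
  have h3 : (tr F M M).symm x = 0 := h1 (by rw [h2, map_zero])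
  rw [← (tr F M M).apply_symm_apply x, h3, map_zero]

variable [Normal K M]

/-- The classes which are fixed by the group of `M`. -/
theorem fixed_of (hg : Good 2 (-1 : K) F)
    (hρ : ∀ σ : SeparableClosure M ≃ₐ[M] SeparableClosure M, ρ (dn ε σ) = 1)
    {x : Fin n → Jac 2 F (SeparableClosure K)}
    (hx : ∀ ν, res (M := M) ε ν = 1 → ta F ρ ν x = x) (i : Fin n) :
    ∃ y : Jac 2 F M, jm 2 F (incl K M (SeparableClosure M)) y = jm 2 F ε.toAlgHom (x i) := by
  apply fixed_class hyps hg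
  intro τ
  have h1 := congrFun (hx (dn ε τ) (res_one.2 ⟨τ, rfl⟩)) i
  rw [ta_dn hρ] at h1
  have h2 := congrArg (jm 2 F ε.toAlgHom) h1
  rw [jm_jm, dn_comp, ← jm_jm] at h2
  exact h2

theorem inj_of (hg : Good 2 (-1 : K) F) (hgM : Good 2 (-1 : M) (F.map (algebraMap K M)))
    (hρ : ∀ σ : SeparableClosure M ≃ₐ[M] SeparableClosure M, ρ (dn ε σ) = 1)
    (hd : ∀ x : Jac 2 F M, 2 • x = 0 → x = 0)
    (x : Fin n → Jac 2 F (SeparableClosure K))
    (hx : ∀ ν, res (M := M) ε ν = 1 → ta F ρ ν x = x) (h : 2 • x = 0) : x = 0 := by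
  funext i
  obtain ⟨y, hy⟩ := fixed_of hg hρ hx i
  have h1 : 2 • x i = 0 := congrFun h i
  have h2 : jm 2 F (incl K M (SeparableClosure M)) (2 • y) = 0 := by
    rw [map_nsmul, hy, ← map_nsmul, h1, map_zero]
  have h3 := hd y (incl_inj hgM _ h2)
  rw [h3, map_zero] at hy
  exact eps_inj _ hy.symm

theorem surj_of (hg : Good 2 (-1 : K) F)
    (hρ : ∀ σ : SeparableClosure M ≃ₐ[M] SeparableClosure M, ρ (dn ε σ) = 1)
    (hd : ∀ x : Jac 2 F M, ∃ y, 2 • y = x)
    (x : Fin n → Jac 2 F (SeparableClosure K))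
    (hx : ∀ ν, res (M := M) ε ν = 1 → ta F ρ ν x = x) :
    ∃ y, (∀ ν, res (M := M) ε ν = 1 → ta F ρ ν y = y) ∧ 2 • y = x := by
  choose y hy using fixed_of hg hρ hx
  choose z hz using fun i => hd (y i)
  have e1 : ∀ (τ : SeparableClosure M ≃ₐ[M] SeparableClosure M) (w : Jac 2 F M),
      jm 2 F (dn ε τ).toAlgHom (jm 2 F ε.symm.toAlgHom (jm 2 F (incl K M (SeparableClosure M)) w)) =
        jm 2 F ε.symm.toAlgHom (jm 2 F (incl K M (SeparableClosure M)) w) := by
    intro τ w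
    have e2 : (dn ε τ).toAlgHom.comp (ε.symm.toAlgHom.comp (incl K M (SeparableClosure M))) =
        ε.symm.toAlgHom.comp (incl K M (SeparableClosure M)) := by
      apply AlgHom.ext
      intro m
      show dn ε τ (ε.symm (algebraMap M _ m)) = ε.symm (algebraMap M _ m)
      apply ε.injective
      rw [dn_apply, ε.apply_symm_apply, τ.commutes]
    have e3 := jm_jm (ℓ := 2) (f := F) (incl K M (SeparableClosure M)) ε.symm.toAlgHom w
    rw [e3]
    have e4 := jm_jm (ℓ := 2) (f := F) (ε.symm.toAlgHom.comp (incl K M (SeparableClosure M)))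
      (dn ε τ).toAlgHom w
    rw [e4, e2]
  have e5 : ∀ w : Jac 2 F (SeparableClosure K),
      jm 2 F ε.symm.toAlgHom (jm 2 F ε.toAlgHom w) = w := by
    intro w
    have e : ε.symm.toAlgHom.comp ε.toAlgHom = AlgHom.id K (SeparableClosure K) := by
      apply AlgHom.ext
      intro y
      show ε.symm (ε y) = y
      rw [ε.symm_apply_apply]
    rw [jm_jm, e, jm_id]
  refine ⟨fun i => jm 2 F ε.symm.toAlgHom (jm 2 F (incl K M (SeparableClosure M)) (z i)), ?_, ?_⟩
  · intro ν hν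
    obtain ⟨τ, rfl⟩ := res_one.1 hν
    funext i
    rw [ta_dn hρ]
    exact e1 τ (z i)
  · funext i
    have h6 : 2 • jm 2 F ε.symm.toAlgHom (jm 2 F (incl K M (SeparableClosure M)) (z i)) = x i := by
      rw [← map_nsmul, ← map_nsmul, hz, hy, e5]
    exact h6

/-- **The main step.** -/
theorem core [FiniteDimensional K M] [IsGalois K M] {m : ℕ}
    (hm : Module.finrank K M = 2 ^ m) (hg : Good 2 (-1 : K) F)
    (hgM : Good 2 (-1 : M) (F.map (algebraMap K M)))
    (hρ : ∀ σ : SeparableClosure M ≃ₐ[M] SeparableClosure M, ρ (dn ε σ) = 1)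
    {R : Type} [CommRing R] [IsDedekindDomain R] [Algebra R M] [IsFractionRing R M]
    (hd : Function.Bijective fun P : Pool.Agent.Y713.Jac.J 2 (F.map (algebraMap K M)) M => P ^ 2)
    (hS : Pool.Agent.Y713.Jac.ShaPrimaryTrivial 2 (F.map (algebraMap K M)) R)
    {Pl : ∀ (E : Type) [Field E] [Algebra K E], Prop}
    (hPl : ∀ w : HeightOneSpectrum R, ∃ (L : Type) (_ : Field L) (_ : Algebra K L), Pl L ∧
      ∃ j : L →+* w.adicCompletion M, ∀ x : K, j (algebraMap K L x) =
        algebraMap M (w.adicCompletion M) (algebraMap K M x))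
    {f : GK K → Fin n → Jac 2 F (SeparableClosure K)} (hf : TCoc F ρ f)
    (hl : ∀ (E : Type) [Field E] [Algebra K E], Pl E → TLoc F ρ E f)
    {k : ℕ} (hk : TCob F ρ (fun σ => 2 ^ k • f σ)) : TCob F ρ f := by
  haveI : IsGalois K (SeparableClosure M) := IsGalois.of_algEquiv ε
  obtain ⟨hd1, hd2⟩ := div_down hd
  obtain ⟨P, hP⟩ := hk
  have h1 : ∀ i : Fin n, ∃ Q : Jac 2 F (SeparableClosure M),
      ∀ σ : SeparableClosure M ≃ₐ[M] SeparableClosure M,
        cc ε f i σ = jm 2 F (rs K σ) Q - Q := fun i =>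
    sha_down hS (cc ε f i) (cc_lc hf i) (cc_mul hρ hf i) (fun w => by
      obtain ⟨L, i1, i2, hL, j, hj⟩ := hPl w
      letI : Algebra K (w.adicCompletion M) :=
        ((algebraMap M (w.adicCompletion M)).comp (algebraMap K M)).toAlgebra
      haveI : IsScalarTower K M (w.adicCompletion M) := IsScalarTower.of_algebraMap_eq fun _ => rfl
      exact cc_loc hρ j hj (hl L hL) i) k (jm 2 F ε.toAlgHom (P i)) (fun σ => by
        have h2 := hP (dn ε σ)
        rw [mats_one (hρ σ)] at h2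
        have h3 : 2 ^ k • f (dn ε σ) i = jm 2 F (dn ε σ).toAlgHom (P i) - P i := congrFun h2 i
        show 2 ^ k • jm 2 F ε.toAlgHom (f (dn ε σ) i) = _
        rw [← map_nsmul, h3, map_sub, jm_jm, dn_comp, ← jm_jm])
  choose R' hR using h1
  set T : Fin n → Jac 2 F (SeparableClosure K) := fun i => jm 2 F ε.symm.toAlgHom (R' i) with hT
  set h : GK K → Fin n → Jac 2 F (SeparableClosure K) :=
    fun σ => f σ - (ta F ρ σ T - T) with hh
  have hhm : ∀ σ τ, h (σ * τ) = h σ + ta F ρ σ (h τ) := by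
    intro σ τ
    show f (σ * τ) - (ta F ρ (σ * τ) T - T) = f σ - (ta F ρ σ T - T) +
      ta F ρ σ (f τ - (ta F ρ τ T - T))
    have e1 : f (σ * τ) = f σ + ta F ρ σ (f τ) := hf.2 σ τ
    rw [e1, ta_mul, map_sub, map_sub]
    abel
  have hh0 : ∀ ν, res (M := M) ε ν = 1 → h ν = 0 := by
    intro ν hν
    obtain ⟨τ, rfl⟩ := res_one.1 hν
    funext i
    show f (dn ε τ) i - (ta F ρ (dn ε τ) T i - T i) = 0
    rw [ta_dn hρ]
    apply eps_inj (ε := ε)
    have h5 : jm 2 F ε.toAlgHom (f (dn ε τ) i) = jm 2 F (rs K τ) (R' i) - R' i := hR i τ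
    have e5 : jm 2 F ε.toAlgHom (T i) = R' i := eps_symm _
    have e6 : jm 2 F ε.toAlgHom (jm 2 F (dn ε τ).toAlgHom (T i)) = jm 2 F (rs K τ) (R' i) := by
      rw [jm_jm, dn_comp, ← jm_jm, e5]
    rw [map_sub, map_sub, h5, e5, e6, sub_self]
  have hcard : Nat.card (M ≃ₐ[K] M) = 2 ^ m := by
    rw [IsGalois.card_aut_eq_finrank, hm]
  obtain ⟨Q, hQ⟩ := avg (a := ta F ρ) ta_mul (inj_of hg hgM hρ hd1) (surj_of hg hρ hd2)
    res_surj hcard hhm hh0
  refine ⟨Q + T, fun σ => ?_⟩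
  have h2 : f σ - (ta F ρ σ T - T) = ta F ρ σ Q - Q := hQ σ
  show f σ = ta F ρ σ (Q + T) - (Q + T)
  rw [map_add, ← sub_add_cancel (f σ) (ta F ρ σ T - T), h2]
  abel

/-- The points. -/
theorem core_pts (hg : Good 2 (-1 : K) F)
    (hgM : Good 2 (-1 : M) (F.map (algebraMap K M)))
    (hρ : ∀ σ : SeparableClosure M ≃ₐ[M] SeparableClosure M, ρ (dn ε σ) = 1)
    (hd : Function.Bijective fun P : Pool.Agent.Y713.Jac.J 2 (F.map (algebraMap K M)) M => P ^ 2) :
    (∀ x, (∀ σ, ta F ρ σ x = x) → 2 • x = 0 → x = 0) ∧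
      ∀ x, (∀ σ, ta F ρ σ x = x) → ∃ y, (∀ σ, ta F ρ σ y = y) ∧ 2 • y = x := by
  obtain ⟨hd1, hd2⟩ := div_down hd
  exact inv_div (a := ta F ρ) ta_mul (inj_of hg hgM hρ hd1) (surj_of hg hρ hd2)

end main

end Pool.Agent.U693.AF
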