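import Pool.Agent.U693.AF.Main
import Pool.Agent.U693.FF.Final

/-!
# Forms of the powers of a hyperelliptic Jacobian: places, closures
-/

set_option autoImplicit false
set_option linter.all false

open Polynomial IsDedekindDomain
open scoped Classical

namespace Pool.Agent.U693.AF

open Pool.Agent.Y160.SE
open Pool.Agent.TH115.GD (incl rs ak)
open Pool.Agent.N106.JB (ATriv ACoc good2)

/-- The places below. -/
theorem exists_below {A K M R : Type} [CommRing A] [IsDedekindDomain A] [Field K] [Algebra A K]
    [IsFractionRing A K] [Field M] [Algebra K M] [Algebra A M] [IsScalarTower A K M] [CommRing R]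
    [IsDedekindDomain R] [Algebra R M] [IsFractionRing R M] [Algebra A R] [IsScalarTower A R M]
    [Algebra.IsIntegral A R] [Module.IsTorsionFree A R] (w : HeightOneSpectrum R) :
    ∃ (v : HeightOneSpectrum A) (j : v.adicCompletion K →+* w.adicCompletion M),
      ∀ x : K, j (algebraMap K _ x) = algebraMap M _ (algebraMap K M x) := by
  let v : HeightOneSpectrum A := w.under A
  haveI hlo : w.asIdeal.LiesOver v.asIdeal := ⟨rfl⟩
  have hval : ∀ x : K, v.valuation K x ^ v.asIdeal.ramificationIdx' w.asIdeal =
      w.valuation M (algebraMap K M x) := fun x =>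
    HeightOneSpectrum.valuation_liesOver (A := A) M v w x
  have he : v.asIdeal.ramificationIdx' w.asIdeal ≠ 0 :=
    Ideal.IsDedekindDomain.ramificationIdx'_ne_zero_of_liesOver w.asIdeal v.ne_bot
  obtain ⟨j, hj1, -, -⟩ := Pool.Agent.TH115.GD.exists_compl_map v w (algebraMap K M)
    (fun x hx => by rw [← hval]; exact pow_le_one₀ zero_le hx)
    (fun x hx => by rw [← hval]; exact pow_lt_one₀ zero_le hx he)
  exact ⟨v, j, fun x => hj1 x⟩

/-- The closure of `M` and the closure of `K`. -/
theorem exists_eps {K M : Type} [Field K] [Field M] [Algebra K M] [Algebra.IsSeparable K M]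
    (ψ : M →ₐ[K] SeparableClosure K) :
    ∃ ε : SeparableClosure K ≃ₐ[K] SeparableClosure M,
      ∀ (σ : SeparableClosure M ≃ₐ[M] SeparableClosure M) (m : M), dn ε σ (ψ m) = ψ m := by
  letI : Algebra M (SeparableClosure K) := ψ.toRingHom.toAlgebra
  haveI : IsScalarTower K M (SeparableClosure K) :=
    IsScalarTower.of_algebraMap_eq fun x => (ψ.commutes x).symm
  haveI : Algebra.IsSeparable M (SeparableClosure K) :=
    Algebra.isSeparable_tower_top_of_isSeparable K M (SeparableClosure K)
  haveI : IsSepClosure M (SeparableClosure K) := ⟨inferInstance, inferInstance⟩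
  haveI : IsSepClosure M (SeparableClosure M) := inferInstance
  let ε0 : SeparableClosure K ≃ₐ[M] SeparableClosure M :=
    IsSepClosure.equiv M (SeparableClosure K) (SeparableClosure M)
  refine ⟨ε0.restrictScalars K, fun σ m => ?_⟩
  apply ε0.injective
  have h1 := dn_apply (ε0.restrictScalars K) σ (ψ m)
  have h2 : ε0 (ψ m) = algebraMap M (SeparableClosure M) m := ε0.commutes m
  refine h1.trans ?_
  show σ (ε0 (ψ m)) = ε0 (ψ m)
  rw [h2, σ.commutes]

end Pool.Agent.U693.AF
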