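import Pool.Agent.U693.AF.Place

/-!
# Forms of the powers of a hyperelliptic Jacobian over the subfields of the members of the class
-/

set_option autoImplicit false
set_option linter.all false

open Polynomial IsDedekindDomain
open scoped Classical

namespace Pool.Agent.U693.AF

open Pool.Agent.Y160.SE

/-- Doubling is bijective on the points and there is no 2-part of the Tate-Shafarevich group. -/
def NoTwo {L : Type} [Field L] (F : L[X]) {n : ℕ}
    (ρ : (SeparableClosure L ≃ₐ[L] SeparableClosure L) →* Matrix.GeneralLinearGroup (Fin n) ℤ)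
    (A : Type) [CommRing A] [IsDedekindDomain A] [Algebra A L] [IsFractionRing A L] : Prop :=
  ((∀ x, (∀ σ, ta F ρ σ x = x) → 2 • x = 0 → x = 0) ∧
    ∀ x, (∀ σ, ta F ρ σ x = x) → ∃ y, (∀ σ, ta F ρ σ y = y) ∧ 2 • y = x) ∧
  ∀ (c : (SeparableClosure L ≃ₐ[L] SeparableClosure L) → Fin n → Jac 2 F (SeparableClosure L))
    (m : ℕ), TCoc F ρ c →
    (∀ v : HeightOneSpectrum A, TLoc F ρ (v.adicCompletion L) c) →
    TCob F ρ (fun σ => 2 ^ m • c σ) → TCob F ρ c

/-- The forms which are split by `M`. -/
theorem noTwo_of {A L M : Type} [CommRing A] [IsDedekindDomain A] [Field L] [Algebra A L]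
    [IsFractionRing A L] [Field M] [Algebra L M] [Algebra A M] [IsScalarTower A L M]
    [FiniteDimensional L M] [IsGalois L M] {m : ℕ} (hm : Module.finrank L M = 2 ^ m)
    (h2L : (2 : L) ≠ 0) {F : L[X]} (hF : F.Monic) (ho : Odd F.natDegree) (hs : F.Separable)
    (ψ : M →ₐ[L] SeparableClosure L) {n : ℕ}
    {ρ : (SeparableClosure L ≃ₐ[L] SeparableClosure L) →* Matrix.GeneralLinearGroup (Fin n) ℤ}
    (hρ : ∀ σ : SeparableClosure L ≃ₐ[L] SeparableClosure L, (∀ x : M, σ (ψ x) = ψ x) → ρ σ = 1)
    (R : Type) [CommRing R] [IsDedekindDomain R]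
    [Algebra R M] [IsFractionRing R M] [Algebra A R] [IsScalarTower A R M]
    [Algebra.IsIntegral A R] [Module.IsTorsionFree A R]
    (h : Pool.Agent.N874.Jac.UniquelyTwoDivisible (F.map (algebraMap L M)) ∧
      Pool.Agent.N874.Jac.ShaTwoTrivial (F.map (algebraMap L M)) R) :
    NoTwo F ρ A := by
  have h2M : (2 : M) ≠ 0 := by
    have h3 : algebraMap L M 2 ≠ 0 := by
      rw [Ne, map_eq_zero_iff _ (algebraMap L M).injective]
      exact h2L
    rwa [map_ofNat] at h3
  have hg : Pool.Agent.Y160.SE.Good 2 (-1 : L) F := Pool.Agent.N106.JB.good2 h2L hF hs ho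
  have hgM : Pool.Agent.Y160.SE.Good 2 (-1 : M) (F.map (algebraMap L M)) :=
    Pool.Agent.N106.JB.good2 h2M (hF.map _) hs.map (by rw [hF.natDegree_map]; exact ho)
  obtain ⟨ε, hε⟩ := exists_eps ψ
  have hρ' : ∀ σ : SeparableClosure M ≃ₐ[M] SeparableClosure M, ρ (dn ε σ) = 1 :=
    fun σ => hρ _ (hε σ)
  refine ⟨core_pts (F := F) hg hgM hρ' h.1, fun c m' hc hl hb => ?_⟩
  exact core (F := F) hm hg hgM hρ' (R := R)
    h.1 (fun c m h1 h2 h3 => h.2 c m h1 h2 h3)
    (Pl := fun E _ _ => TLoc F ρ E c)
    (fun w => by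
      obtain ⟨v, j, hj⟩ := exists_below (A := A) (K := L) (M := M) (R := R) w
      exact ⟨v.adicCompletion L, inferInstance, inferInstance, hl v, j, hj⟩)
    hc (fun E _ _ hE => hE) (k := m') hb

/-- The integral closure in `M` of the integral closure `A` of `B` in `L` is the integral closure
of `B`. -/
theorem isIntegralClosure_tower {B A L M : Type} [CommRing B] [CommRing A] [Field L] [Field M]
    [Algebra B L] [Algebra A L] [Algebra B A] [IsScalarTower B A L] [IsIntegralClosure A B L]
    [Algebra L M] [Algebra B M] [Algebra A M] [IsScalarTower B A M] :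
    IsIntegralClosure (integralClosure A M) B M := by
  haveI : Algebra.IsIntegral B A := IsIntegralClosure.isIntegral_algebra B L
  refine ⟨Subtype.val_injective, fun {x} => ⟨fun hx => ?_, ?_⟩⟩
  · exact ⟨⟨x, hx.tower_top⟩, rfl⟩
  · rintro ⟨y, rfl⟩
    exact isIntegral_trans (R := B) (A := A) _ y.2

/-- All forms over all subfields. -/
theorem all_sub {k : Type} [Field k] [Finite k] (h2 : (2 : k) ≠ 0) {K : Type} [Field K]
    [Algebra k[X] K] [IsFractionRing k[X] K] {S T : Finset k[X]}
    {M₀ : Type} [Field M₀] [Algebra K M₀] [Algebra k[X] M₀] {f : k[X][X]}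
    (hf : f.Monic) (ho : Odd f.natDegree) (hs : (f.map (algebraMap k[X] K)).Separable)
    (h : Pool.Agent.U693.FF.Prp K T S M₀ f)
    (M : Type) [Field M] [Algebra K M] [Algebra k[X] M] [IsScalarTower k[X] K M]
    (h1 : Pool.Agent.U693.FF.Cls k[X] K S (Pool.Agent.U693.FF.IrrMod f) M)
    (L : Type) [Field L] [Algebra K L] [Algebra k[X] L] [IsScalarTower k[X] K L] [Algebra L M]
    [IsScalarTower K L M] (A : Type) [CommRing A] [IsDedekindDomain A] [Algebra A L]
    [IsFractionRing A L] [Algebra k[X] A] [IsScalarTower k[X] A L] [IsIntegralClosure A k[X] L]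
    (ψ : M →ₐ[L] SeparableClosure L) (n : ℕ)
    (ρ : (SeparableClosure L ≃ₐ[L] SeparableClosure L) →* Matrix.GeneralLinearGroup (Fin n) ℤ)
    (hρ : ∀ σ : SeparableClosure L ≃ₐ[L] SeparableClosure L,
      (∀ x : M, σ (ψ x) = ψ x) → ρ σ = 1) :
    NoTwo (f.map (algebraMap k[X] L)) ρ A := by
  haveI := h1.finite
  haveI := h1.galois
  obtain ⟨m, hm⟩ := h1.degree
  haveI : FiniteDimensional L M := FiniteDimensional.right K L M
  haveI : FiniteDimensional K L := FiniteDimensional.left K L M
  haveI : IsGalois L M := IsGalois.tower_top_of_isGalois K L M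
  haveI : Algebra.IsSeparable K L := Algebra.isSeparable_tower_bot_of_isSeparable K L M
  obtain ⟨m', -, hm'⟩ : ∃ m' ≤ m, Module.finrank L M = 2 ^ m' :=
    (Nat.dvd_prime_pow Nat.prime_two).1
      (hm ▸ ⟨Module.finrank K L, by rw [mul_comm]; exact (Module.finrank_mul_finrank K L M).symm⟩)
  haveI : IsScalarTower k[X] L M := IsScalarTower.of_algebraMap_eq fun x => by
    rw [IsScalarTower.algebraMap_apply k[X] K M, IsScalarTower.algebraMap_apply k[X] K L,
      ← IsScalarTower.algebraMap_apply K L M]
  letI : Algebra A M := ((algebraMap L M).comp (algebraMap A L)).toAlgebra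
  haveI : IsScalarTower A L M := IsScalarTower.of_algebraMap_eq fun _ => rfl
  haveI : IsScalarTower k[X] A M := IsScalarTower.of_algebraMap_eq fun x => by
    rw [IsScalarTower.algebraMap_apply k[X] L M, IsScalarTower.algebraMap_apply k[X] A L]
    rfl
  haveI : IsDedekindDomain (integralClosure A M) := integralClosure.isDedekindDomain A L M
  haveI : IsFractionRing (integralClosure A M) M :=
    integralClosure.isFractionRing_of_finite_extension L M
  haveI : IsIntegralClosure (integralClosure A M) k[X] M :=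
    isIntegralClosure_tower (B := k[X]) (A := A) (L := L) (M := M)
  haveI : Module.IsTorsionFree A M := by
    rw [Module.isTorsionFree_iff_algebraMap_injective, IsScalarTower.algebraMap_eq A L M]
    exact (algebraMap L M).injective.comp (IsFractionRing.injective A L)
  haveI : Module.IsTorsionFree A (integralClosure A M) := inferInstance
  have hz := h.zero M (integralClosure A M) h1
  have hmap : f.map (algebraMap k[X] M) = (f.map (algebraMap k[X] L)).map (algebraMap L M) := by
    rw [Polynomial.map_map, ← IsScalarTower.algebraMap_eq k[X] L M]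
  rw [hmap] at hz
  have hmapL : f.map (algebraMap k[X] L) = (f.map (algebraMap k[X] K)).map (algebraMap K L) := by
    rw [Polynomial.map_map, ← IsScalarTower.algebraMap_eq k[X] K L]
  have h2L : (2 : L) ≠ 0 := by
    have h3 : ((algebraMap k[X] L).comp C) 2 ≠ 0 := by
      rw [Ne, map_eq_zero]
      exact h2
    rwa [map_ofNat] at h3
  exact noTwo_of hm' h2L (hf.map _) (by rw [hf.natDegree_map]; exact ho)
    (by rw [hmapL]; exact hs.map) ψ hρ (integralClosure A M) hz

end Pool.Agent.U693.AF
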