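import Pool.Agent.N352.JB.All
import Pool.Agent.TH115.TC.Compl
import Pool.Agent.TH115.TC.Cob

/-!
# Forms of the powers of a hyperelliptic Jacobian: change of the base field

`F` is a polynomial over `K`, and `M` an extension of `K`.
-/

set_option autoImplicit false
set_option linter.all false

open Polynomial IsDedekindDomain
open scoped Classical

namespace Pool.Agent.U693.AF

open Pool.Agent.Y160.SE
open Pool.Agent.TH115.GD (incl rs ak)
open Pool.Agent.N106.JB

section eqv

variable {L L' : Type} [Field L] [Field L']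

/-- The group of the polynomial `p`. -/
abbrev PC (p : L[X]) : Type := Additive (CommRing.Pic (CR 2 p))

/-- The maps. -/
noncomputable def pm (φ : L →+* L') (p : L[X]) (p' : L'[X]) (h : p.map φ = p') : PC p →+ PC p' :=
  MonoidHom.toAdditive (CommRing.Pic.mapRingHom (crMap 2 φ p p' h))

/-- Equal polynomials have the same group. -/
noncomputable def eqp {p q : L[X]} (h : p = q) : PC p ≃+ PC q := by
  subst h
  exact AddEquiv.refl _

theorem eqp_pm {φ ψ : L →+* L'} (e : φ = ψ) {p q : L[X]} {p' q' : L'[X]} (h : p = q)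
    (h' : p' = q') (h1 : p.map φ = p') (h2 : q.map ψ = q') (x : PC p) :
    eqp h' (pm φ p p' h1 x) = pm ψ q q' h2 (eqp h x) := by
  subst e
  subst h
  subst h'
  rfl

end eqv

section tr

variable {K : Type} [Field K] (F : K[X]) (M : Type) [Field M] [Algebra K M]

theorem tr_eq (L : Type) [Field L] [Algebra K L] [Algebra M L] [IsScalarTower K M L] :
    (F.map (algebraMap K M)).map (algebraMap M L) = F.map (algebraMap K L) := by
  rw [Polynomial.map_map, ← IsScalarTower.algebraMap_eq]

/-- The group for the polynomial over `M` and for the polynomial over `K`. -/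
noncomputable def tr (L : Type) [Field L] [Algebra K L] [Algebra M L] [IsScalarTower K M L] :
    Jac 2 (F.map (algebraMap K M)) L ≃+ Jac 2 F L := eqp (tr_eq F M L)

variable {F M}

theorem tr_nat {L L' : Type} [Field L] [Algebra K L] [Algebra M L] [IsScalarTower K M L]
    [Field L'] [Algebra K L'] [Algebra M L'] [IsScalarTower K M L'] (φ : L →ₐ[M] L')
    (φ' : L →ₐ[K] L') (h : ∀ x, φ' x = φ x) (x : Jac 2 (F.map (algebraMap K M)) L) :
    tr F M L' (jm 2 (F.map (algebraMap K M)) φ x) = jm 2 F φ' (tr F M L x) :=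
  eqp_pm (RingHom.ext fun y => (h y).symm) (tr_eq F M L) (tr_eq F M L') _ _ x

theorem div_down (h : Function.Bijective fun P : Pool.Agent.Y713.Jac.J 2 (F.map (algebraMap K M)) M =>
    P ^ 2) : (∀ x : Jac 2 F M, 2 • x = 0 → x = 0) ∧ ∀ x : Jac 2 F M, ∃ y, 2 • y = x := by
  constructor
  · intro x hx
    have h1 : 2 • (tr F M M).symm x = 0 := by rw [← map_nsmul, hx, map_zero]
    have h2 : (mu ((tr F M M).symm x)) ^ 2 = (1 : Pool.Agent.Y713.Jac.J 2 (F.map (algebraMap K M)) M) ^ 2 := by
      rw [one_pow]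
      exact h1
    have h3 := h.1 h2
    have h4 : (tr F M M).symm x = 0 := h3
    rw [← (tr F M M).apply_symm_apply x, h4, map_zero]
  · intro x
    obtain ⟨y, hy⟩ := h.2 (mu ((tr F M M).symm x))
    refine ⟨tr F M M (ad y), ?_⟩
    have h1 : 2 • ad y = (tr F M M).symm x := hy
    rw [← map_nsmul, h1, AddEquiv.apply_symm_apply]


theorem nat1 (σ : SeparableClosure M ≃ₐ[M] SeparableClosure M)
    (P : Jac 2 (F.map (algebraMap K M)) (SeparableClosure M)) :
    tr F M (SeparableClosure M) (jm 2 (F.map (algebraMap K M)) (ak σ) P) =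
      jm 2 F (rs K σ) (tr F M (SeparableClosure M) P) :=
  tr_nat (ak σ) (rs K σ) (fun x => rfl) P

theorem nat2 (σ : SeparableClosure M ≃ₐ[M] SeparableClosure M)
    (P : Jac 2 F (SeparableClosure M)) :
    (tr F M (SeparableClosure M)).symm (jm 2 F (rs K σ) P) =
      jm 2 (F.map (algebraMap K M)) (ak σ) ((tr F M (SeparableClosure M)).symm P) := by
  apply (tr F M (SeparableClosure M)).injective
  rw [nat1, AddEquiv.apply_symm_apply, AddEquiv.apply_symm_apply]

/-- The cochain over `M`. -/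
noncomputable def cM (g : (SeparableClosure M ≃ₐ[M] SeparableClosure M) → Jac 2 F (SeparableClosure M)) :
    Pool.Agent.Y713.Jac.Cochain 2 (F.map (algebraMap K M)) :=
  fun σ => mu ((tr F M (SeparableClosure M)).symm (g σ))

theorem ad_cM (g : (SeparableClosure M ≃ₐ[M] SeparableClosure M) → Jac 2 F (SeparableClosure M))
    (σ : SeparableClosure M ≃ₐ[M] SeparableClosure M) :
    ad (cM g σ) = (tr F M (SeparableClosure M)).symm (g σ) := rfl

theorem cM_coc (g : (SeparableClosure M ≃ₐ[M] SeparableClosure M) → Jac 2 F (SeparableClosure M))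
    (hlc : IsLocallyConstant g) (hmul : ∀ σ τ, g (σ * τ) = g σ + jm 2 F (rs K σ) (g τ)) :
    Pool.Agent.Y713.Jac.IsCocycle 2 (F.map (algebraMap K M)) (cM g) := by
  refine ⟨hlc.comp (fun x => mu ((tr F M (SeparableClosure M)).symm x)), fun σ τ => ?_⟩
  apply ad_inj
  rw [ad_mul, ad_mapJ, ad_cM, ad_cM, ad_cM, hmul, map_add, nat2]
  rfl

theorem cM_cob (g : (SeparableClosure M ≃ₐ[M] SeparableClosure M) → Jac 2 F (SeparableClosure M))
    (m : ℕ) (Q : Jac 2 F (SeparableClosure M))
    (hQ : ∀ σ, 2 ^ m • g σ = jm 2 F (rs K σ) Q - Q) :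
    Pool.Agent.Y713.Jac.IsCoboundary 2 (F.map (algebraMap K M)) (fun σ => cM g σ ^ 2 ^ m) := by
  refine ⟨mu ((tr F M (SeparableClosure M)).symm Q), fun σ => ?_⟩
  have h1 : (tr F M (SeparableClosure M)).symm (2 ^ m • g σ) =
      jm 2 (F.map (algebraMap K M)) (ak σ) ((tr F M (SeparableClosure M)).symm Q) -
        (tr F M (SeparableClosure M)).symm Q := by
    rw [hQ, map_sub, nat2]
  rw [map_nsmul] at h1
  apply ad_inj
  rw [ad_div, ad_mapJ]
  exact h1

theorem cM_loc (g : (SeparableClosure M ≃ₐ[M] SeparableClosure M) → Jac 2 F (SeparableClosure M))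
    (E : Type) [Field E] [Algebra M E] (h : ATriv (f := F.map (algebraMap K M)) E
      (fun σ => (tr F M (SeparableClosure M)).symm (g σ))) :
    Pool.Agent.Y713.Jac.IsTrivialOver 2 (F.map (algebraMap K M)) E (cM g) := by
  obtain ⟨ι, P, hP⟩ := h
  refine ⟨ι, mu P, fun τ σ hx => ?_⟩
  apply ad_inj
  rw [ad_mapJ, ad_div, ad_mapJ, ad_cM, ad_mu]
  exact hP τ σ hx

/-- The hypothesis in terms of the polynomial over `K`. -/
theorem sha_down {R : Type} [CommRing R] [IsDedekindDomain R] [Algebra R M] [IsFractionRing R M]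
    (hS : Pool.Agent.Y713.Jac.ShaPrimaryTrivial 2 (F.map (algebraMap K M)) R)
    (g : (SeparableClosure M ≃ₐ[M] SeparableClosure M) → Jac 2 F (SeparableClosure M))
    (hlc : IsLocallyConstant g)
    (hmul : ∀ σ τ, g (σ * τ) = g σ + jm 2 F (rs K σ) (g τ))
    (hloc : ∀ v : HeightOneSpectrum R, ATriv (f := F.map (algebraMap K M)) (v.adicCompletion M)
      (fun σ => (tr F M (SeparableClosure M)).symm (g σ)))
    (m : ℕ) (Q : Jac 2 F (SeparableClosure M))
    (hQ : ∀ σ, 2 ^ m • g σ = jm 2 F (rs K σ) Q - Q) :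
    ∃ Q : Jac 2 F (SeparableClosure M), ∀ σ, g σ = jm 2 F (rs K σ) Q - Q := by
  obtain ⟨T, hT⟩ := hS (cM g) m (cM_coc g hlc hmul) (fun v => cM_loc g _ (hloc v)) (cM_cob g m Q hQ)
  refine ⟨tr F M (SeparableClosure M) (ad T), fun σ => ?_⟩
  have h1 := congrArg ad (hT σ)
  rw [ad_div, ad_mapJ, ad_cM] at h1
  have h2 := congrArg (tr F M (SeparableClosure M)) h1
  rw [AddEquiv.apply_symm_apply, map_sub] at h2
  rw [h2]
  congr 1
  exact nat1 σ (ad T)

end tr

end Pool.Agent.U693.AF
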