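import Pool.Agent.U693.AF.Tr

/-!
# Forms of the powers of a hyperelliptic Jacobian: matrices and continuity
-/

set_option autoImplicit false
set_option linter.all false

open Polynomial IsDedekindDomain
open scoped Classical

namespace Pool.Agent.U693.AF

section mt

variable {A B C : Type} [AddCommGroup A] [AddCommGroup B] [AddCommGroup C] {n : ℕ}

/-- The action of an integral matrix on `A ^ n`. -/
def mt (g : Matrix (Fin n) (Fin n) ℤ) : (Fin n → A) →+ (Fin n → A) where
  toFun P := fun i => ∑ j, g i j • P j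
  map_zero' := by
    funext i
    simp
  map_add' := by
    intro P Q
    funext i
    simp [Finset.sum_add_distrib]

/-- The map on `A ^ n` given by a homomorphism. -/
def mp (φ : A →+ B) : (Fin n → A) →+ (Fin n → B) where
  toFun P := fun i => φ (P i)
  map_zero' := by
    funext i
    exact map_zero _
  map_add' := by
    intro P Q
    funext i
    exact map_add _ _ _

theorem mt_apply (g : Matrix (Fin n) (Fin n) ℤ) (P : Fin n → A) (i : Fin n) :
    mt g P i = ∑ j, g i j • P j := rfl

theorem mp_apply (φ : A →+ B) (P : Fin n → A) (i : Fin n) : mp φ P i = φ (P i) := rfl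

theorem mt_one (P : Fin n → A) : mt 1 P = P := by
  funext i
  rw [mt_apply, Finset.sum_eq_single i]
  · rw [Matrix.one_apply_eq, one_smul]
  · intro j _ hj
    rw [Matrix.one_apply_ne hj.symm, zero_smul]
  · intro h
    exact absurd (Finset.mem_univ i) h

theorem mt_mul (g h : Matrix (Fin n) (Fin n) ℤ) (P : Fin n → A) :
    mt (g * h) P = mt g (mt h P) := by
  funext i
  rw [mt_apply, mt_apply]
  have h1 : ∀ j, g i j • mt h P j = ∑ l, g i j • h j l • P l := fun j => by
    rw [mt_apply, Finset.smul_sum]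
  simp only [h1]
  rw [Finset.sum_comm]
  refine Finset.sum_congr rfl fun l _ => ?_
  rw [Matrix.mul_apply, Finset.sum_smul]
  refine Finset.sum_congr rfl fun j _ => ?_
  rw [mul_smul]

theorem mp_mt (φ : A →+ B) (g : Matrix (Fin n) (Fin n) ℤ) (P : Fin n → A) :
    mp φ (mt g P) = mt g (mp φ P) := by
  funext i
  rw [mp_apply, mt_apply, mt_apply, map_sum]
  refine Finset.sum_congr rfl fun j _ => ?_
  rw [map_zsmul, mp_apply]

end mt

section cj

variable {F Ω Ω2 : Type} [Field F] [Field Ω] [Field Ω2] [Algebra F Ω] [Algebra F Ω2]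

/-- The conjugation is continuous. -/
theorem cont_cj [IsGalois F Ω] (ε : Ω ≃ₐ[F] Ω2) :
    Continuous (fun σ : Ω2 ≃ₐ[F] Ω2 => ((ε.trans σ).trans ε.symm : Ω ≃ₐ[F] Ω)) := by
  haveI : Algebra.IsIntegral F Ω2 := ⟨fun x => by
    have h1 : _root_.IsIntegral F (ε.symm x) := Algebra.IsIntegral.isIntegral _
    have h2 := h1.map ε.toAlgHom
    have h3 : ε.toAlgHom (ε.symm x) = x := ε.apply_symm_apply x
    rwa [h3] at h2⟩
  let φ : (Ω2 ≃ₐ[F] Ω2) →* (Ω ≃ₐ[F] Ω) :=
    { toFun := fun σ => (ε.trans σ).trans ε.symm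
      map_one' := by
        apply AlgEquiv.ext
        intro x
        show ε.symm (ε x) = x
        rw [ε.symm_apply_apply]
      map_mul' := fun σ τ => by
        apply AlgEquiv.ext
        intro x
        show ε.symm (σ (τ (ε x))) = ε.symm (σ (ε (ε.symm (τ (ε x)))))
        rw [ε.apply_symm_apply] }
  have hc : Continuous φ := by
    apply continuous_of_continuousAt_one
    unfold ContinuousAt
    rw [map_one]
    intro s hs
    obtain ⟨E, hE, hEs⟩ := (krullTopology_mem_nhds_one_iff F Ω s).1 hs
    haveI : Algebra.IsSeparable F E := inferInstance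
    obtain ⟨α, hα⟩ := Field.exists_primitive_element F E
    have ho : (MulAction.stabilizer (Ω2 ≃ₐ[F] Ω2) (ε (α : Ω)) : Set (Ω2 ≃ₐ[F] Ω2)) ∈
        nhds (1 : Ω2 ≃ₐ[F] Ω2) :=
      (stabilizer_isOpen_of_isIntegral (K := F) (ε (α : Ω))).mem_nhds
        (MulAction.stabilizer (Ω2 ≃ₐ[F] Ω2) (ε (α : Ω))).one_mem
    rw [Filter.mem_map]
    refine Filter.mem_of_superset ho fun τ hτ => hEs ?_
    have hτ' : τ (ε (α : Ω)) = ε α := hτ
    show φ τ ∈ E.fixingSubgroup
    rw [IntermediateField.mem_fixingSubgroup_iff]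
    intro x hx
    have key : ((φ τ).toAlgHom.comp E.val) = E.val := by
      refine AlgHom.ext fun y => ?_
      have hy : y ∈ (⊤ : IntermediateField F E) := trivial
      rw [← hα] at hy
      refine IntermediateField.adjoin_induction F
        (p := fun y _ => ((φ τ).toAlgHom.comp E.val) y = E.val y) ?_ ?_ ?_ ?_ ?_ hy
      · intro y hy
        rw [Set.mem_singleton_iff] at hy
        subst hy
        show ε.symm (τ (ε (y : Ω))) = y
        rw [hτ', ε.symm_apply_apply]
      · intro y
        rw [AlgHom.commutes, AlgHom.commutes]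
      · intro x y _ _ hx hy
        rw [map_add, map_add, hx, hy]
      · intro x _ hx
        rw [map_inv₀, map_inv₀, hx]
      · intro x y _ _ hx hy
        rw [map_mul, map_mul, hx, hy]
    exact congrArg (fun ψ : E →ₐ[F] Ω => ψ ⟨x, hx⟩) key
  exact hc

end cj

end Pool.Agent.U693.AF
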